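import Pool.Agent.R420.DS6

/-!
# MP_2a941c_nt, question Q1 (full affirmative answer)

For all positive integers `m, n` the polynomials
`A_{m,n} = (1/n) Σ_{k<n} (2k+1) d_k(x)^m s_k(x)^m` and
`B_{m,n} = (1/n) Σ_{k<n} (-1)^k (2k+1) d_k(x)^m s_k(x)^m` are integer-valued.
-/

namespace Pool.Agent.Results.MP_2a941c_nt.FullAnswer

open Finset Polynomial

/-- The polynomial `binom(x,k) = x(x-1)...(x-k+1)/k!` in `ℚ[x]`. -/
noncomputable def binomPoly (k : ℕ) : ℚ[X] :=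
  C (1 / (k.factorial : ℚ)) * ∏ i ∈ range k, (X - C (i : ℚ))

/-- `c_k(x) = binom(x,k) * binom(x+k,k)`. -/
noncomputable def cPoly (k : ℕ) : ℚ[X] :=
  binomPoly k * (binomPoly k).comp (X + C (k : ℚ))

/-- `d_n(x) = Σ_{k=0}^n 2^k binom(n,k) binom(x,k)`. -/
noncomputable def dPoly (n : ℕ) : ℚ[X] :=
  ∑ k ∈ range (n + 1), C (2 ^ k * (n.choose k : ℚ)) * binomPoly k

/-- `s_n(x) = Σ_{k=0}^n binom(n,k) c_k(x)`. -/
noncomputable def sPoly (n : ℕ) : ℚ[X] :=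
  ∑ k ∈ range (n + 1), C (n.choose k : ℚ) * cPoly k

/-- `Σ^+_n[f] = Σ_{k=0}^{n-1} (2k+1) f_k(x)`. -/
noncomputable def sigmaPlus (n : ℕ) (f : ℕ → ℚ[X]) : ℚ[X] :=
  ∑ k ∈ range n, C (2 * (k : ℚ) + 1) * f k

/-- `Σ^-_n[f] = Σ_{k=0}^{n-1} (-1)^k (2k+1) f_k(x)`. -/
noncomputable def sigmaMinus (n : ℕ) (f : ℕ → ℚ[X]) : ℚ[X] :=
  ∑ k ∈ range n, C ((-1) ^ k * (2 * (k : ℚ) + 1)) * f k

/-- `A_{m,n}(x) = (1/n) Σ^+_n[(ds)^m]`. -/
noncomputable def APoly (m n : ℕ) : ℚ[X] :=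
  C (1 / (n : ℚ)) * sigmaPlus n (fun k => dPoly k ^ m * sPoly k ^ m)

/-- `B_{m,n}(x) = (1/n) Σ^-_n[(ds)^m]`. -/
noncomputable def BPoly (m n : ℕ) : ℚ[X] :=
  C (1 / (n : ℚ)) * sigmaMinus n (fun k => dPoly k ^ m * sPoly k ^ m)

/-- `P ∈ ℚ[x]` is integer-valued when `P(a)` is an integer for each integer `a`. -/
def IsIntValued (P : ℚ[X]) : Prop := ∀ a : ℤ, ∃ b : ℤ, P.eval (a : ℚ) = (b : ℚ)

lemma eval_binomPoly (k : ℕ) (x : ℚ) : (binomPoly k).eval x = R420.DS.binv x k := by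
  unfold binomPoly R420.DS.binv
  rw [eval_mul, eval_C, eval_prod]
  simp only [eval_sub, eval_X, eval_C]
  ring

lemma eval_dPoly (n : ℕ) (x : ℚ) : (dPoly n).eval x = R420.DS.dv n x := by
  unfold dPoly R420.DS.dv
  rw [eval_finsetSum]
  refine Finset.sum_congr rfl fun k _ => ?_
  rw [eval_mul, eval_C, eval_binomPoly]

lemma eval_sPoly (n : ℕ) (x : ℚ) : (sPoly n).eval x = R420.DS.sv n x := by
  unfold sPoly R420.DS.sv
  rw [eval_finsetSum]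
  refine Finset.sum_congr rfl fun k _ => ?_
  rw [eval_mul, eval_C, cPoly, eval_mul, eval_comp, eval_binomPoly, eval_binomPoly]
  simp only [eval_add, eval_X, eval_C]

/-- Full affirmative answer to Q1. -/
theorem result : ∀ m n : ℕ, 1 ≤ m → 1 ≤ n →
    IsIntValued (APoly m n) ∧ IsIntValued (BPoly m n) := by
  intro m n _ hn
  have hn0 : (n : ℚ) ≠ 0 := by
    have : n ≠ 0 := by omega
    exact_mod_cast this
  constructor
  · intro a
    obtain ⟨z, hz⟩ := R420.DS.plus_val m n a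
    refine ⟨z, ?_⟩
    unfold APoly sigmaPlus
    rw [eval_mul, eval_C, eval_finsetSum]
    have : ∑ k ∈ range n, (C (2 * (k : ℚ) + 1) * (dPoly k ^ m * sPoly k ^ m)).eval (a:ℚ)
        = ∑ k ∈ range n, (2*(k:ℚ)+1) * (R420.DS.dv k a ^ m * R420.DS.sv k a ^ m) := by
      refine Finset.sum_congr rfl fun k _ => ?_
      rw [eval_mul, eval_C, eval_mul, eval_pow, eval_pow, eval_dPoly, eval_sPoly]
    rw [this, hz]
    field_simp
  · intro a
    obtain ⟨z, hz⟩ := R420.DS.minus_val m n a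
    refine ⟨z, ?_⟩
    unfold BPoly sigmaMinus
    rw [eval_mul, eval_C, eval_finsetSum]
    have : ∑ k ∈ range n, (C ((-1) ^ k * (2 * (k : ℚ) + 1)) * (dPoly k ^ m * sPoly k ^ m)).eval (a:ℚ)
        = ∑ k ∈ range n, (-1:ℚ)^k * (2*(k:ℚ)+1) * (R420.DS.dv k a ^ m * R420.DS.sv k a ^ m) := by
      refine Finset.sum_congr rfl fun k _ => ?_
      rw [eval_mul, eval_C, eval_mul, eval_pow, eval_pow, eval_dPoly, eval_sPoly]
    rw [this, hz]
    field_simp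

end Pool.Agent.Results.MP_2a941c_nt.FullAnswer
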